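import Pool.Agent.MP_3ee8cb_gt.G76.Fin
import Pool.Agent.MP_3ee8cb_gt.G76.Bus
import Pool.Agent.MP_3ee8cb_gt.G76.Par
import Pool.Agent.MP_3ee8cb_gt.G76.Fla
import Pool.Agent.MP_3ee8cb_gt.G76.ConM
import Pool.Agent.MP_3ee8cb_gt.G76.Wal
import Pool.Agent.MP_3ee8cb_gt.G76.Iso
import Pool.Agent.MP_3ee8cb_gt.G76.Sep
import Pool.Agent.MP_3ee8cb_gt.G76.Twi
import Pool.Agent.MP_3ee8cb_gt.G76.Psi
import Pool.Agent.MP_3ee8cb_gt.G76.Val
import Pool.Agent.MP_3ee8cb_gt.G76.Pro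
import Pool.Agent.MP_3ee8cb_gt.G76.Glu
import Pool.Agent.MP_3ee8cb_gt.G76.Uni

namespace Pool.Agent.Results.MP_3ee8cb_gt.GraphManifold

open Pool.Agent.MP_3ee8cb_gt.G76

/-- Conjugacy rigidity of the geodesic flow for nonpositively curved graph manifolds of dimension
at least four with one dimensional fibres and flat walls. -/
theorem result (m : ℕ) (hm : 3 ≤ m) (X Y Γ Λ : Type) [MetricSpace X] [ProperSpace X]
    [MetricSpace Y] [ProperSpace Y] [Group Γ] [Group Λ] [MulAction Γ X] [MulAction Λ Y]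
    (H : Hadamard (m + 1) X) (H' : Hadamard (m + 1) Y) (dX : Deck Γ X) (dY : Deck Λ Y)
    (G : Graph m Γ X) (h : UT Γ X ≃ₜ UT Λ Y)
    (hh : ∀ (t : ℝ) (c : Line X) (c' : Line Y), h (Quotient.mk _ c) = Quotient.mk _ c' →
      h (Quotient.mk _ (flow t c)) = Quotient.mk _ (flow t c')) :
    ∃ (φ : X ≃ᵢ Y) (ρ : Γ ≃* Λ), ∀ (γ : Γ) (x : X), φ (γ • x) = ρ γ • φ x :=
  fin_main bus_main par_main fla_main lift_main con_main wal_main iso_main sep_main
    (twi_main psi_main val_main pro_main) glu_main uni_main m hm X Y Γ Λ H H' dX dY G h hh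

end Pool.Agent.Results.MP_3ee8cb_gt.GraphManifold
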