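import Pool.Agent.MP_3ee8cb_gt.LV.All
import Pool.Agent.MP_3ee8cb_gt.SL.LinkL

/-! A topological conjugacy of geodesic flows onto a negatively curved closed manifold preserves
Liouville measure. -/

namespace Pool.Agent.MP_3ee8cb_gt.Retired.LiouvilleMeasure

open Pool.Agent.MP_3ee8cb_gt Pool.Agent.MP_3ee8cb_gt.SL

theorem result (n : ℕ) (g h : Met n) (Γ Λ : Type) [Group Γ] [Group Λ] [MulAction Γ (E n)]
    [MulAction Λ (E n)] (Φ : ℝ → UT g → UT g) (Ψ : ℝ → UT h → UT h) (f : UM g Γ ≃ₜ UM h Λ)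
    (a : ℝ) (hn : 3 ≤ n) (hg : Riem g) (hh : Riem h) (dΓ : Deck g Γ) (dΛ : Deck h Λ)
    (hΦ : IsFlow g Φ) (hΨ : IsFlow h Ψ) (ha : 0 < a) (hK : CurvLe h a) (hf : Conj Φ Ψ f)
    (D D' : Set (E n)) (hD : Fund Γ D) (hD' : Fund Λ D') (B : Set (UM g Γ))
    (hB : @MeasurableSet _ (borel (UM g Γ)) B) : liou g Γ D B = liou h Λ D' (f '' B) := by
  obtain ⟨g, rfl, rg⟩ := link_riem hg
  obtain ⟨h, rfl, rh⟩ := link_riem hh
  exact LV.all_main n g h Γ Λ Φ Ψ f a hn rg rh (link_deck dΓ) (link_deck dΛ) (link_flow rg hΦ)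
    (link_flow rh hΨ) ha (link_curv rh hK) hf D D' hD hD' B hB

/-- The case of the whole unit tangent bundle: the two manifolds have the same volume. -/
theorem volume_eq (n : ℕ) (g h : Met n) (Γ Λ : Type) [Group Γ] [Group Λ] [MulAction Γ (E n)]
    [MulAction Λ (E n)] (Φ : ℝ → UT g → UT g) (Ψ : ℝ → UT h → UT h) (f : UM g Γ ≃ₜ UM h Λ)
    (a : ℝ) (hn : 3 ≤ n) (hg : Riem g) (hh : Riem h) (dΓ : Deck g Γ) (dΛ : Deck h Λ)
    (hΦ : IsFlow g Φ) (hΨ : IsFlow h Ψ) (ha : 0 < a) (hK : CurvLe h a) (hf : Conj Φ Ψ f)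
    (D D' : Set (E n)) (hD : Fund Γ D) (hD' : Fund Λ D') : vol g D = vol h D' := by
  have H := result n g h Γ Λ Φ Ψ f a hn hg hh dΓ dΛ hΦ hΨ ha hK hf D D' hD hD' _ .univ
  obtain ⟨g, rfl, rg⟩ := link_riem hg
  obtain ⟨h, rfl, rh⟩ := link_riem hh
  exact LV.fin_vol LV.vol' LV.cov' (g := g) (h := h) f (by omega) rg rh hD.1 hD'.1 H

end Pool.Agent.MP_3ee8cb_gt.Retired.LiouvilleMeasure
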