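import Pool.Agent.MP_3ee8cb_gt.SLL.All

/-! A negatively curved closed manifold is determined by its geodesic flow among all uniformly
close metrics. -/

namespace Pool.Agent.MP_3ee8cb_gt.Retired.LocalC0

open Pool.Agent.MP_3ee8cb_gt Pool.Agent.MP_3ee8cb_gt.SL Pool.Agent.MP_3ee8cb_gt.SL3
  Pool.Agent.MP_3ee8cb_gt.SLL

theorem result (n : ℕ) (hn : 3 ≤ n) (k : ℝ) : ∃ e : ℝ, 0 < e ∧ ∀ (g h : Met n) (Γ : Type)
    [Group Γ] [MulAction Γ (E n)] (Φ : ℝ → UT g → UT g) (Ψ : ℝ → UT h → UT h)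
    (f : UM g Γ ≃ₜ UM h Γ), Riem g → Riem h → Deck g Γ → Deck h Γ → Smooth h Γ → IsFlow g Φ →
    IsFlow h Ψ → Conj Φ Ψ f → Marked f → Pinched h k → Near g h e → IsoId g h Γ :=
  allL core n hn k

end Pool.Agent.MP_3ee8cb_gt.Retired.LocalC0
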