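import Pool.Agent.MP_3ee8cb_gt.SLN.Fin
import Pool.Agent.MP_3ee8cb_gt.DN.Fin
import Pool.Agent.MP_3ee8cb_gt.DNTR.Fin
import Pool.Agent.MP_3ee8cb_gt.DNGA.Pol
import Pool.Agent.MP_3ee8cb_gt.DNG.Fin
import Pool.Agent.MP_3ee8cb_gt.DNC0.All

/-! Conjugacy rigidity of pinched negatively curved closed manifolds in every dimension. -/

namespace Pool.Agent.MP_3ee8cb_gt.Retired.PinchedAllDimV1

open Pool.Agent.MP_3ee8cb_gt Pool.Agent.MP_3ee8cb_gt.SL Pool.Agent.MP_3ee8cb_gt.SL3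

theorem result (n : ℕ) (hn : 3 ≤ n) : ∃ k : ℝ, 1 < k ∧ ∀ (g h : Met n) (Γ Λ : Type) [Group Γ]
    [Group Λ] [MulAction Γ (E n)] [MulAction Λ (E n)] (Φ : ℝ → UT g → UT g)
    (Ψ : ℝ → UT h → UT h) (f : UM g Γ ≃ₜ UM h Λ), Riem g → Riem h → Deck g Γ → Deck h Λ →
    Smooth g Γ → Smooth h Λ → IsFlow g Φ → IsFlow h Ψ → Conj Φ Ψ f → Pinched g 4 →
    Pinched h k → Isometric g h Γ Λ :=
  SLN.allB (DN.mainN_tr (DN.tr_of DN.sPOL) DN.sG) DNC0.partB n hn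

end Pool.Agent.MP_3ee8cb_gt.Retired.PinchedAllDimV1
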