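import Pool.Agent.MP_3ee8cb_gt.D8.All
import Pool.Agent.MP_3ee8cb_gt.SLN.Q

/-! A pinched negatively curved closed manifold is determined by its geodesic flow. -/

namespace Pool.Agent.MP_3ee8cb_gt.Retired.PinchedAllDimV5

open Pool.Agent.MP_3ee8cb_gt Pool.Agent.MP_3ee8cb_gt.SL Pool.Agent.MP_3ee8cb_gt.SL3

theorem result (n : ℕ) (hn : 3 ≤ n) (g h : Met n) (Γ Λ : Type) [Group Γ] [Group Λ]
    [MulAction Γ (E n)] [MulAction Λ (E n)] (Φ : ℝ → UT g → UT g) (Ψ : ℝ → UT h → UT h)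
    (f : UM g Γ ≃ₜ UM h Λ) (hg : Riem g) (hh : Riem h) (dΓ : Deck g Γ) (dΛ : Deck h Λ)
    (sΓ : Smooth g Γ) (sΛ : Smooth h Λ) (hΦ : IsFlow g Φ) (hΨ : IsFlow h Ψ) (hf : Conj Φ Ψ f)
    (hN : Pinched h ((1 + if n = 8 then 1001 / 1000 else
      max (36 / (5 * (n : ℝ))) (129 / (100 * √(n : ℝ)))) ^ 2)) :
    Isometric g h Γ Λ :=
  SLN.allK (fun n => (1 + if n = 8 then 1001 / 1000 else
      max (36 / (5 * (n : ℝ))) (129 / (100 * √(n : ℝ)))) ^ 2) D8.main n hn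
    g h Γ Λ Φ Ψ f hg hh dΓ dΛ sΓ sΛ hΦ hΨ hf hN

end Pool.Agent.MP_3ee8cb_gt.Retired.PinchedAllDimV5
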