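import Pool.Agent.MP_3ee8cb_gt.RS.All
import Pool.Agent.MP_3ee8cb_gt.ST.Br

namespace Pool.Agent.Results.MP_3ee8cb_gt.SymmetricRigid

open Pool.Agent.MP_3ee8cb_gt Pool.Agent.MP_3ee8cb_gt.ST

/-- Closed negatively curved locally symmetric manifolds of dimension at least three are rigid
under continuous conjugacy of geodesic flows, among all Riemannian metrics on quotients of `ℝⁿ`. -/
theorem result (n : ℕ) (hn : 3 ≤ n) (g h : Met n) (Γ Λ : Type) [Group Γ] [Group Λ]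
    [MulAction Γ (E n)] [MulAction Λ (E n)] (hg : Riem g) (hh : RankOne h)
    (dg : Deck g Γ) (dh : Deck h Λ) (Φ : ℝ → UT g → UT g) (Ψ : ℝ → UT h → UT h)
    (fg : IsFlow g Φ) (fh : IsFlow h Ψ) (f : UM g Γ ≃ₜ UM h Λ) (hf : Conjug Φ Ψ f) :
    ∃ (F : E n → E n) (ρ : Γ ≃* Λ), Function.Bijective F ∧ C1 F ∧
      (∀ x u v, h (F x) (dv F x u) (dv F x v) = g x u v) ∧
      ∀ (γ : Γ) (x : E n), F (γ • x) = ρ γ • F x := by
  obtain ⟨g0, rfl⟩ := br_met g hg.lin hg.symm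
  obtain ⟨h0, rfl, h1⟩ := br_rank hh
  obtain ⟨c, D, d, hc, hD, hs⟩ := CR.bridge CR.qinj CR.qini h1
  have r0 : CR.Riem h0 := CR.allc_riem (by omega) hc hD hs
  exact CR.allc_main c hc n D d g0 h0 Γ Λ Φ Ψ f hn hD (br_riem hg) hs (br_deck dg) (br_deck dh)
    (br_flow (br_riem hg) fg) (br_flow r0 fh) hf

end Pool.Agent.Results.MP_3ee8cb_gt.SymmetricRigid
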